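import Mathlib

/-!
Claim A of the minimal cylinder argument (abstract relation form, loops allowed).
-/

namespace Pool.Agent.H85.P4

variable {V : Type*}

def P4 (M : V → V → Prop) (a b c d : V) : Prop :=
  M a b ∧ M b c ∧ M c d ∧ ¬ M a c ∧ ¬ M a d ∧ ¬ M b d

def Free (M : V → V → Prop) (D : Finset V) : Prop :=
  ∀ a ∈ D, ∀ b ∈ D, ∀ c ∈ D, ∀ d ∈ D, ¬ P4 M a b c d

def Mid (M : V → V → Prop) (D : Finset V) (u v g : V) : Prop :=
  (M g g ↔ ¬ M u u) ∧ (M g u ↔ ¬ M u u) ∧ (M g v ↔ ¬ M u u) ∧
    ∀ y ∈ D, (M u y ↔ M v y) → (M g y ↔ M u y)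

def PairsIn (M : V → V → Prop) (D : Finset V) : Prop :=
  ∀ u ∈ D, ∀ v ∈ D, (M u u ↔ M v v) → (M u v ↔ ¬ M u u) → ∃ g ∈ D, Mid M D u v g

def RPairs (M : V → V → Prop) (D : Finset V) : Prop :=
  ∀ u ∈ D, ∀ v ∈ D, (M u u ↔ M v v) → (M u v ↔ ¬ M u u) →
    (∃ g ∈ D, Mid M D u v g) ∨ (M u u ∧ ∀ y ∈ D, ¬ (M u y ∧ M v y))

def Split (M : V → V → Prop) (D : Finset V) : Prop :=
  ∃ A B : Finset V, A.Nonempty ∧ B.Nonempty ∧ Disjoint A B ∧ (∀ x, x ∈ D ↔ x ∈ A ∨ x ∈ B) ∧
    ((∀ a ∈ A, ∀ b ∈ B, ¬ M a b) ∨ (∀ a ∈ A, ∀ b ∈ B, M a b))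

def Cp (M : V → V → Prop) : V → V → Prop := fun x y => ¬ M x y

theorem cp_symm {M : V → V → Prop} (hs : ∀ x y, M x y → M y x) : ∀ x y, Cp M x y → Cp M y x :=
  fun x y h h' => h (hs y x h')

theorem free_cp {M : V → V → Prop} (hs : ∀ x y, M x y → M y x) {D : Finset V} (h : Free M D) :
    Free (Cp M) D := by
  intro a ha b hb c hc d hd hp
  obtain ⟨h1, h2, h3, h4, h5, h6⟩ := hp
  unfold Cp at h1 h2 h3 h4 h5 h6
  exact h b hb d hd a ha c hc ⟨not_not.1 h6, hs _ _ (not_not.1 h5), not_not.1 h4,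
    fun h' => h1 (hs _ _ h'), h2, fun h' => h3 (hs _ _ h')⟩

theorem mid_cp {M : V → V → Prop} {D : Finset V} {u v g : V} (h : Mid M D u v g) :
    Mid (Cp M) D u v g := by
  obtain ⟨h1, h2, h3, h4⟩ := h
  unfold Cp
  refine ⟨by tauto, by tauto, by tauto, ?_⟩
  intro y hy hxy
  have := h4 y hy (by tauto)
  tauto

theorem pairs_cp {M : V → V → Prop} {D : Finset V} (h : PairsIn M D) : PairsIn (Cp M) D := by
  intro u hu v hv h1 h2
  unfold Cp at h1 h2
  obtain ⟨g, hg, hm⟩ := h u hu v hv (by tauto) (by tauto)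
  exact ⟨g, hg, mid_cp hm⟩

theorem cp_cp (M : V → V → Prop) : Cp (Cp M) = M := by
  funext x y
  unfold Cp
  exact propext not_not

theorem split_cp {M : V → V → Prop} {D : Finset V} (h : Split (Cp M) D) : Split M D := by
  obtain ⟨A, B, hA, hB, hd, hU, h⟩ := h
  refine ⟨A, B, hA, hB, hd, hU, ?_⟩
  rcases h with h | h
  · right
    intro a ha b hb
    exact not_not.1 (h a ha b hb)
  · left
    intro a ha b hb
    exact h a ha b hb

open Classical in
theorem core {M : V → V → Prop} (hs : ∀ x y, M x y → M y x) {v : V} {A B D : Finset V}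
    (hvD : v ∉ A) (hvB : v ∉ B) (hdis : Disjoint A B) (hU : ∀ x, x ∈ D ↔ x = v ∨ x ∈ A ∨ x ∈ B)
    (hno : ∀ a ∈ A, ∀ b ∈ B, ¬ M a b) (hf : Free M D) {x w a : V} (hx : x ∈ A) (hvx : ¬ M v x)
    (hw : w ∈ B) (hvw : M v w) (ha : a ∈ A) (hva : M v a) : Split M D := by
  by_cases h : ∀ p ∈ A.filter (fun p => ¬ M v p), ∀ q ∈ A.filter (fun p => M v p), ¬ M p q
  · refine ⟨A.filter (fun p => ¬ M v p), D \ A.filter (fun p => ¬ M v p), ⟨x, by simp [hx, hvx]⟩,
      ⟨w, ?_⟩, Finset.disjoint_sdiff, ?_, Or.inl ?_⟩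
    · rw [Finset.mem_sdiff]
      refine ⟨(hU w).2 (Or.inr (Or.inr hw)), ?_⟩
      intro hw'
      rw [Finset.mem_filter] at hw'
      exact hw'.2 hvw
    · intro y
      rw [Finset.mem_sdiff]
      constructor
      · intro hy
        by_cases h' : y ∈ A.filter (fun p => ¬ M v p)
        · exact Or.inl h'
        · exact Or.inr ⟨hy, h'⟩
      · rintro (hy | hy)
        · exact (hU y).2 (Or.inr (Or.inl (Finset.mem_filter.1 hy).1))
        · exact hy.1
    · intro p hp q hq
      rw [Finset.mem_sdiff] at hq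
      obtain ⟨hq1, hq2⟩ := hq
      have hpA := Finset.mem_filter.1 hp
      rcases (hU q).1 hq1 with rfl | hqA | hqB
      · exact fun h' => hpA.2 (hs _ _ h')
      · apply h p hp q
        rw [Finset.mem_filter]
        refine ⟨hqA, ?_⟩
        by_contra hc
        exact hq2 (Finset.mem_filter.2 ⟨hqA, hc⟩)
      · exact hno p hpA.1 q hqB
  · push Not at h
    obtain ⟨p, hp, q, hq, hpq⟩ := h
    rw [Finset.mem_filter] at hp hq
    exfalso
    exact hf p ((hU p).2 (Or.inr (Or.inl hp.1))) q ((hU q).2 (Or.inr (Or.inl hq.1))) v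
      ((hU v).2 (Or.inl rfl)) w ((hU w).2 (Or.inr (Or.inr hw)))
      ⟨hpq, hs _ _ hq.2, hvw, fun h' => hp.2 (hs _ _ h'), hno p hp.1 w hw, hno q hq.1 w hw⟩

open Classical in
theorem step {M : V → V → Prop} (hs : ∀ x y, M x y → M y x) {v : V} {A B D : Finset V}
    (hvA : v ∉ A) (hvB : v ∉ B) (hA : A.Nonempty) (hB : B.Nonempty) (hdis : Disjoint A B)
    (hU : ∀ x, x ∈ D ↔ x = v ∨ x ∈ A ∨ x ∈ B)
    (hno : ∀ a ∈ A, ∀ b ∈ B, ¬ M a b) (hf : Free M D) : Split M D := by
  by_cases h1 : ∀ a ∈ A, ¬ M v a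
  · refine ⟨A, insert v B, hA, ⟨v, Finset.mem_insert_self v B⟩, ?_, ?_, Or.inl ?_⟩
    · rw [Finset.disjoint_insert_right]
      exact ⟨hvA, hdis⟩
    · intro x
      rw [hU, Finset.mem_insert]
      tauto
    · intro a ha b hb
      rcases Finset.mem_insert.1 hb with rfl | hb
      · exact fun h' => h1 a ha (hs _ _ h')
      · exact hno a ha b hb
  by_cases h2 : ∀ b ∈ B, ¬ M v b
  · refine ⟨B, insert v A, hB, ⟨v, Finset.mem_insert_self v A⟩, ?_, ?_, Or.inl ?_⟩
    · rw [Finset.disjoint_insert_right]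
      exact ⟨hvB, hdis.symm⟩
    · intro x
      rw [hU, Finset.mem_insert]
      tauto
    · intro b hb a ha
      rcases Finset.mem_insert.1 ha with rfl | ha
      · exact fun h' => h2 b hb (hs _ _ h')
      · exact fun h' => hno a ha b hb (hs _ _ h')
  push Not at h1 h2
  obtain ⟨a, ha, hva⟩ := h1
  obtain ⟨w, hw, hvw⟩ := h2
  by_cases h3 : ∀ x ∈ A ∪ B, M v x
  · refine ⟨{v}, A ∪ B, ⟨v, Finset.mem_singleton_self v⟩, hA.mono Finset.subset_union_left, ?_,
      ?_, Or.inr ?_⟩
    · rw [Finset.disjoint_singleton_left, Finset.mem_union]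
      tauto
    · intro x
      rw [hU, Finset.mem_singleton, Finset.mem_union]
    · intro x hx y hy
      rw [Finset.mem_singleton] at hx
      rw [hx]
      exact h3 y hy
  · push Not at h3
    obtain ⟨x, hx, hvx⟩ := h3
    rcases Finset.mem_union.1 hx with hx | hx
    · exact core hs hvA hvB hdis hU hno hf hx hvx hw hvw ha hva
    · exact core hs hvB hvA hdis.symm (fun x => by rw [hU]; tauto)
        (fun b hb a ha h' => hno a ha b hb (hs _ _ h')) hf hx hvx ha hva hw hvw

/-- Seinsche's theorem. -/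
theorem seinsche {M : V → V → Prop} (hs : ∀ x y, M x y → M y x) :
    ∀ (n : ℕ) (D : Finset V), D.card = n → 2 ≤ n → Free M D → Split M D := by
  classical
  intro n
  induction n with
  | zero => intro D _ h; omega
  | succ n ih =>
    intro D hD hn hf
    have hne : D.Nonempty := by
      rw [← Finset.card_pos]; omega
    obtain ⟨v, hv⟩ := hne
    have hU0 : ∀ x, x ∈ D ↔ x = v ∨ x ∈ D.erase v := by
      intro x
      rw [Finset.mem_erase]
      constructor
      · intro hx
        by_cases h : x = v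
        · exact Or.inl h
        · exact Or.inr ⟨h, hx⟩
      · rintro (rfl | h)
        · exact hv
        · exact h.2
    have hc : (D.erase v).card = n := by
      rw [Finset.card_erase_of_mem hv]; omega
    by_cases hn2 : 2 ≤ n
    · have hf' : Free M (D.erase v) := fun a ha b hb c hc d hd =>
        hf a (Finset.mem_of_mem_erase ha) b (Finset.mem_of_mem_erase hb) c
          (Finset.mem_of_mem_erase hc) d (Finset.mem_of_mem_erase hd)
      obtain ⟨A, B, hA, hB, hdis, hU, hab⟩ := ih (D.erase v) hc hn2 hf'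
      have hvA : v ∉ A := fun h => (Finset.notMem_erase v D) ((hU v).2 (Or.inl h))
      have hvB : v ∉ B := fun h => (Finset.notMem_erase v D) ((hU v).2 (Or.inr h))
      have hU' : ∀ x, x ∈ D ↔ x = v ∨ x ∈ A ∨ x ∈ B := by
        intro x
        rw [hU0, hU]
      rcases hab with hab | hab
      · exact step hs hvA hvB hA hB hdis hU' hab hf
      · apply split_cp
        exact step (cp_symm hs) hvA hvB hA hB hdis hU' (fun a ha b hb h => h (hab a ha b hb))
          (free_cp hs hf)
    · have hn1 : n = 1 := by omega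
      subst hn1
      obtain ⟨w, hw⟩ := Finset.card_eq_one.1 hc
      have hwv : v ≠ w := by
        intro h
        have : w ∈ D.erase v := by rw [hw]; exact Finset.mem_singleton_self w
        rw [← h] at this
        exact Finset.notMem_erase v D this
      refine ⟨{v}, {w}, ⟨v, Finset.mem_singleton_self v⟩, ⟨w, Finset.mem_singleton_self w⟩, ?_, ?_,
        ?_⟩
      · rw [Finset.disjoint_singleton_left, Finset.mem_singleton]
        exact hwv
      · intro x
        rw [hU0, hw, Finset.mem_singleton, Finset.mem_singleton]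
      · by_cases h : M v w
        · right
          intro a ha b hb
          rw [Finset.mem_singleton] at ha hb
          rw [ha, hb]; exact h
        · left
          intro a ha b hb
          rw [Finset.mem_singleton] at ha hb
          rw [ha, hb]; exact h

theorem mid_mono {M : V → V → Prop} {A D : Finset V} (hAD : A ⊆ D) {u v g : V}
    (h : Mid M D u v g) : Mid M A u v g :=
  ⟨h.1, h.2.1, h.2.2.1, fun y hy => h.2.2.2 y (hAD hy)⟩

theorem noEdge {M : V → V → Prop} (hs : ∀ x y, M x y → M y x) {A B D : Finset V}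
    (hU : ∀ x, x ∈ D ↔ x ∈ A ∨ x ∈ B) (hno : ∀ a ∈ A, ∀ b ∈ B, ¬ M a b) (hp : PairsIn M D)
    (ihA : PairsIn M A → ∃ x ∈ A, (∀ y ∈ A, ¬ M x y) ∨ (∀ y ∈ A, M x y))
    (ihB : PairsIn M B → ∃ x ∈ B, (∀ y ∈ B, ¬ M x y) ∨ (∀ y ∈ B, M x y)) :
    ∃ x ∈ D, (∀ y ∈ D, ¬ M x y) ∨ (∀ y ∈ D, M x y) := by
  have key : ∀ (A B : Finset V), (∀ x, x ∈ D ↔ x ∈ A ∨ x ∈ B) →
      (∀ a ∈ A, ∀ b ∈ B, ¬ M a b) → ¬ PairsIn M A → ∃ x ∈ D, (∀ y ∈ D, ¬ M x y) := by
    intro A B hU hno hPA
    unfold PairsIn at hPA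
    push Not at hPA
    obtain ⟨u, hu, v, hv, h1, h2, h3⟩ := hPA
    have hAD : A ⊆ D := fun x hx => (hU x).2 (Or.inl hx)
    obtain ⟨g, hg, hm⟩ := hp u (hAD hu) v (hAD hv) h1 h2
    rcases (hU g).1 hg with hgA | hgB
    · exact absurd (mid_mono hAD hm) (h3 g hgA)
    · refine ⟨g, hg, ?_⟩
      intro y hy
      rcases (hU y).1 hy with hyA | hyB
      · exact fun h' => hno y hyA g hgB (hs _ _ h')
      · have e1 := hno u hu y hyB
        have e2 := hno v hv y hyB
        have := hm.2.2.2 y hy (by tauto)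
        tauto
  by_cases hPA : PairsIn M A
  · by_cases hPB : PairsIn M B
    · obtain ⟨x, hx, hx'⟩ := ihA hPA
      obtain ⟨y, hy, hy'⟩ := ihB hPB
      rcases hx' with hx' | hx'
      · refine ⟨x, (hU x).2 (Or.inl hx), Or.inl ?_⟩
        intro z hz
        rcases (hU z).1 hz with hz | hz
        · exact hx' z hz
        · exact hno x hx z hz
      · rcases hy' with hy' | hy'
        · refine ⟨y, (hU y).2 (Or.inr hy), Or.inl ?_⟩
          intro z hz
          rcases (hU z).1 hz with hz | hz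
          · exact fun h' => hno z hz y hy (hs _ _ h')
          · exact hy' z hz
        · exfalso
          have hxx := hx' x hx
          have hyy := hy' y hy
          have hxy := hno x hx y hy
          obtain ⟨g, hg, hm⟩ := hp x ((hU x).2 (Or.inl hx)) y ((hU y).2 (Or.inr hy))
            (by tauto) (by tauto)
          obtain ⟨_, m2, m3, _⟩ := hm
          rcases (hU g).1 hg with hgA | hgB
          · have := hs _ _ (hx' g hgA)
            tauto
          · have := hs _ _ (hy' g hgB)
            tauto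
    · obtain ⟨x, hx, h⟩ := key B A (fun x => by rw [hU]; tauto)
        (fun b hb a ha h' => hno a ha b hb (hs _ _ h')) hPB
      exact ⟨x, hx, Or.inl h⟩
  · obtain ⟨x, hx, h⟩ := key A B hU hno hPA
    exact ⟨x, hx, Or.inl h⟩

/-- Claim A, first part: a non-empty `P4`-free set with internal pairs has an isolated or a full
vertex. -/
theorem isoFull {M : V → V → Prop} (hs : ∀ x y, M x y → M y x) :
    ∀ (n : ℕ) (D : Finset V), D.card = n → D.Nonempty → Free M D → PairsIn M D →
      ∃ x ∈ D, (∀ y ∈ D, ¬ M x y) ∨ (∀ y ∈ D, M x y) := by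
  classical
  intro n
  induction n using Nat.strong_induction_on with
  | _ n ih =>
    intro D hD hne hf hp
    by_cases h2 : 2 ≤ n
    · obtain ⟨A, B, hA, hB, hdis, hU, hab⟩ := seinsche hs n D hD h2 hf
      have hDAB : D = A ∪ B := by
        ext x
        rw [hU, Finset.mem_union]
      have hcard : A.card + B.card = n := by
        rw [← hD, hDAB, Finset.card_union_of_disjoint hdis]
      have hA0 := Finset.card_pos.2 hA
      have hB0 := Finset.card_pos.2 hB
      have hAD : A ⊆ D := fun x hx => (hU x).2 (Or.inl hx)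
      have hBD : B ⊆ D := fun x hx => (hU x).2 (Or.inr hx)
      have fA : Free M A := fun a ha b hb c hc d hd => hf a (hAD ha) b (hAD hb) c (hAD hc) d (hAD hd)
      have fB : Free M B := fun a ha b hb c hc d hd => hf a (hBD ha) b (hBD hb) c (hBD hc) d (hBD hd)
      have iA := ih A.card (by omega) A rfl hA fA
      have iB := ih B.card (by omega) B rfl hB fB
      rcases hab with hab | hab
      · exact noEdge hs hU hab hp iA iB
      · have iA' : PairsIn (Cp M) A → ∃ x ∈ A, (∀ y ∈ A, ¬ Cp M x y) ∨ (∀ y ∈ A, Cp M x y) := by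
          intro h
          have h' := pairs_cp h
          rw [cp_cp] at h'
          obtain ⟨x, hx, hx'⟩ := iA h'
          refine ⟨x, hx, ?_⟩
          rcases hx' with hx' | hx'
          · exact Or.inr hx'
          · exact Or.inl (fun y hy h => h (hx' y hy))
        have iB' : PairsIn (Cp M) B → ∃ x ∈ B, (∀ y ∈ B, ¬ Cp M x y) ∨ (∀ y ∈ B, Cp M x y) := by
          intro h
          have h' := pairs_cp h
          rw [cp_cp] at h'
          obtain ⟨x, hx, hx'⟩ := iB h'
          refine ⟨x, hx, ?_⟩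
          rcases hx' with hx' | hx'
          · exact Or.inr hx'
          · exact Or.inl (fun y hy h => h (hx' y hy))
        obtain ⟨x, hx, hx'⟩ := noEdge (cp_symm hs) hU (fun a ha b hb h => h (hab a ha b hb))
          (pairs_cp hp) iA' iB'
        refine ⟨x, hx, ?_⟩
        rcases hx' with hx' | hx'
        · exact Or.inr (fun y hy => not_not.1 (hx' y hy))
        · exact Or.inl hx'
    · have h1 : D.card = 1 := by
        have := Finset.card_pos.2 hne
        omega
      obtain ⟨x, rfl⟩ := Finset.card_eq_one.1 h1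
      refine ⟨x, Finset.mem_singleton_self x, ?_⟩
      by_cases h : M x x
      · right
        intro y hy
        rw [Finset.mem_singleton] at hy
        rw [hy]; exact h
      · left
        intro y hy
        rw [Finset.mem_singleton] at hy
        rw [hy]; exact h

theorem joinFull {M : V → V → Prop} (hs : ∀ x y, M x y → M y x) {A B D : Finset V}
    (hA : A.Nonempty) (hB : B.Nonempty)
    (hU : ∀ x, x ∈ D ↔ x ∈ A ∨ x ∈ B) (hall : ∀ a ∈ A, ∀ b ∈ B, M a b) (hf : Free M D)
    (hp : RPairs M D) : ∃ f ∈ D, ∀ y ∈ D, M f y := by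
  classical
  have key : ∀ (A B : Finset V), B.Nonempty → (∀ x, x ∈ D ↔ x ∈ A ∨ x ∈ B) →
      (∀ a ∈ A, ∀ b ∈ B, M a b) → ¬ PairsIn M A → ∃ x ∈ D, (∀ y ∈ D, M x y) := by
    intro A B hB hU hall hPA
    unfold PairsIn at hPA
    push Not at hPA
    obtain ⟨u, hu, v, hv, h1, h2, h3⟩ := hPA
    have hAD : A ⊆ D := fun x hx => (hU x).2 (Or.inl hx)
    rcases hp u (hAD hu) v (hAD hv) h1 h2 with ⟨g, hg, hm⟩ | ⟨_, hno⟩
    · rcases (hU g).1 hg with hgA | hgB
      · exact absurd (mid_mono hAD hm) (h3 g hgA)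
      · refine ⟨g, hg, ?_⟩
        intro y hy
        rcases (hU y).1 hy with hyA | hyB
        · exact hs _ _ (hall y hyA g hgB)
        · have e1 := hall u hu y hyB
          have e2 := hall v hv y hyB
          have := hm.2.2.2 y hy (by tauto)
          tauto
    · obtain ⟨b, hb⟩ := hB
      exact absurd ⟨hall u hu b hb, hall v hv b hb⟩ (hno b ((hU b).2 (Or.inr hb)))
  by_cases hPA : PairsIn M A
  · by_cases hPB : PairsIn M B
    · have hAD : A ⊆ D := fun x hx => (hU x).2 (Or.inl hx)
      have hBD : B ⊆ D := fun x hx => (hU x).2 (Or.inr hx)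
      have fA : Free M A := fun a ha b hb c hc d hd => hf a (hAD ha) b (hAD hb) c (hAD hc) d (hAD hd)
      have fB : Free M B := fun a ha b hb c hc d hd => hf a (hBD ha) b (hBD hb) c (hBD hc) d (hBD hd)
      obtain ⟨x, hx, hx'⟩ := isoFull hs A.card A rfl hA fA hPA
      obtain ⟨y, hy, hy'⟩ := isoFull hs B.card B rfl hB fB hPB
      rcases hx' with hx' | hx'
      · rcases hy' with hy' | hy'
        · exfalso
          have hxx := hx' x hx
          have hyy := hy' y hy
          have hxy := hall x hx y hy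
          rcases hp x (hAD hx) y (hBD hy) (by tauto) (by tauto) with ⟨g, hg, hm⟩ | ⟨h, _⟩
          · obtain ⟨_, m2, m3, _⟩ := hm
            rcases (hU g).1 hg with hgA | hgB
            · have h5 := hx' g hgA
              exact h5 (hs _ _ (m2.2 hxx))
            · have h5 := hy' g hgB
              exact h5 (hs _ _ (m3.2 hxx))
          · exact hxx h
        · refine ⟨y, hBD hy, ?_⟩
          intro z hz
          rcases (hU z).1 hz with hz | hz
          · exact hs _ _ (hall z hz y hy)
          · exact hy' z hz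
      · refine ⟨x, hAD hx, ?_⟩
        intro z hz
        rcases (hU z).1 hz with hz | hz
        · exact hx' z hz
        · exact hall x hx z hz
    · exact key B A hA (fun x => by rw [hU]; tauto) (fun b hb a ha => hs _ _ (hall a ha b hb)) hPB
  · exact key A B hB hU hall hPA

theorem rpairs_part {M : V → V → Prop} (hs : ∀ x y, M x y → M y x) {A B D : Finset V}
    (hU : ∀ x, x ∈ D ↔ x ∈ A ∨ x ∈ B) (hno : ∀ a ∈ A, ∀ b ∈ B, ¬ M a b) (hp : RPairs M D) :
    RPairs M A := by
  intro u hu v hv h1 h2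
  have hAD : A ⊆ D := fun x hx => (hU x).2 (Or.inl hx)
  rcases hp u (hAD hu) v (hAD hv) h1 h2 with ⟨g, hg, hm⟩ | ⟨h, hno'⟩
  · rcases (hU g).1 hg with hgA | hgB
    · exact Or.inl ⟨g, hgA, mid_mono hAD hm⟩
    · right
      have hgu : ¬ M g u := fun h' => hno u hu g hgB (hs _ _ h')
      obtain ⟨_, m2, _, m4⟩ := hm
      refine ⟨by tauto, ?_⟩
      intro y hy hyy
      have := m4 y (hAD hy) (by tauto)
      exact hno y hy g hgB (hs _ _ (this.2 hyy.1))
  · exact Or.inr ⟨h, fun y hy => hno' y (hAD hy)⟩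

theorem comp_aux {M : V → V → Prop} (hs : ∀ x y, M x y → M y x) :
    ∀ (n : ℕ) (D : Finset V), D.card = n → Free M D → RPairs M D →
      ∀ x ∈ D, ∀ y ∈ D, M x y →
        ∃ f ∈ D, M f f ∧ M f x ∧ ∀ u ∈ D, M f u → ∀ v ∈ D, M u v → M f v := by
  classical
  intro n
  induction n using Nat.strong_induction_on with
  | _ n ih =>
    intro D hD hf hp x hx y hy hxy
    by_cases h2 : 2 ≤ n
    · obtain ⟨A, B, hA, hB, hdis, hU, hab⟩ := seinsche hs n D hD h2 hf
      have hDAB : D = A ∪ B := by
        ext x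
        rw [hU, Finset.mem_union]
      have hcard : A.card + B.card = n := by
        rw [← hD, hDAB, Finset.card_union_of_disjoint hdis]
      have hA0 := Finset.card_pos.2 hA
      have hB0 := Finset.card_pos.2 hB
      rcases hab with hab | hab
      · have key : ∀ (A B : Finset V), A.card < n → (∀ x, x ∈ D ↔ x ∈ A ∨ x ∈ B) →
            (∀ a ∈ A, ∀ b ∈ B, ¬ M a b) → x ∈ A →
            ∃ f ∈ D, M f f ∧ M f x ∧ ∀ u ∈ D, M f u → ∀ v ∈ D, M u v → M f v := by
          intro A B hc hU hno hxA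
          have hAD : A ⊆ D := fun x hx => (hU x).2 (Or.inl hx)
          have fA : Free M A :=
            fun a ha b hb c hc d hd => hf a (hAD ha) b (hAD hb) c (hAD hc) d (hAD hd)
          have hyA : y ∈ A := by
            rcases (hU y).1 hy with h | h
            · exact h
            · exact absurd hxy (hno x hxA y h)
          obtain ⟨f, hfA, h1, h2, h3⟩ := ih A.card hc A rfl fA (rpairs_part hs hU hno hp) x hxA y
            hyA hxy
          refine ⟨f, hAD hfA, h1, h2, ?_⟩
          intro u hu hfu v hv huv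
          have huA : u ∈ A := by
            rcases (hU u).1 hu with h | h
            · exact h
            · exact absurd hfu (hno f hfA u h)
          have hvA : v ∈ A := by
            rcases (hU v).1 hv with h | h
            · exact h
            · exact absurd huv (hno u huA v h)
          exact h3 u huA hfu v hvA huv
        rcases (hU x).1 hx with hxA | hxB
        · exact key A B (by omega) hU hab hxA
        · exact key B A (by omega) (fun x => by rw [hU]; tauto)
            (fun b hb a ha h' => hab a ha b hb (hs _ _ h')) hxB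
      · obtain ⟨f, hfD, hfull⟩ := joinFull hs hA hB hU hab hf hp
        exact ⟨f, hfD, hfull f hfD, hfull x hx, fun u _ _ v hv _ => hfull v hv⟩
    · have h1 : D.card ≤ 1 := by omega
      have hyx : y = x := Finset.card_le_one.1 h1 y hy x hx
      rw [hyx] at hxy
      refine ⟨x, hx, hxy, hxy, ?_⟩
      intro u _ _ v hv _
      have hvx : v = x := Finset.card_le_one.1 h1 v hv x hx
      rw [hvx]; exact hxy

/-- Claim A, second part: the component of a non-isolated vertex `x` of a `P4`-free set with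
internal pairs is the neighbourhood of a looped vertex `f`. -/
theorem compFull {M : V → V → Prop} (hs : ∀ x y, M x y → M y x) {D : Finset V} (hf : Free M D)
    (hp : PairsIn M D) {x y : V} (hx : x ∈ D) (hy : y ∈ D) (hxy : M x y) :
    ∃ f ∈ D, M f f ∧ M f x ∧ ∀ u ∈ D, M f u → ∀ v ∈ D, M u v → M f v :=
  comp_aux hs D.card D rfl hf (fun u hu v hv h1 h2 => Or.inl (hp u hu v hv h1 h2)) x hx y hy hxy

theorem isoOrFull {M : V → V → Prop} (hs : ∀ x y, M x y → M y x) {D : Finset V}
    (hne : D.Nonempty) (hf : Free M D) (hp : PairsIn M D) :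
    ∃ x ∈ D, (∀ y ∈ D, ¬ M x y) ∨ (∀ y ∈ D, M x y) :=
  isoFull hs D.card D rfl hne hf hp

end Pool.Agent.H85.P4
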